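import Pool.Agent.Lib.MP_901be3_an.Hd.Final
import Pool.Agent.Lib.MP_901be3_an.Hd.Stmt

namespace Pool.Agent.Results.MP_901be3_an.Continuation

/-- On every compact smooth surface: if `F n → f` in the `C^r` topology, `r > 1`, and
`t > λ_min(f) / r`, `t > 0`, then for all large `n` every homoclinic class of `F n` with entropy at
least `t` is a hyperbolic continuation of a homoclinic class of `f` with entropy at least `t`
(through one of finitely many periodic orbits of `f`). -/
theorem result.{u} :
    Pool.Agent.Lib.MP_901be3_an.Hd.St.Statement.{u} (EuclideanSpace ℝ (Fin 2)) :=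
  fun _ _ _ _ _ _ _ _ _ _ r f F t hr hf hF hlim ht hlam =>
    Pool.Agent.Lib.MP_901be3_an.Hd.final r hr f F hf hF hlim t ht hlam

end Pool.Agent.Results.MP_901be3_an.Continuation
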